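import Mathlib
import Pool.Agent.H78.ConeDefs
import Pool.Agent.H78.ConeTheory
import Pool.Agent.H78.HypPlane
import Pool.Agent.H78.BinTree

/-!
Asymptotic cones at all basepoints and all scales do not determine the sequence distortion
spectra of a proper geodesic metric space.

The two spaces are the infinite rooted binary tree and the hyperbolic plane.
-/

open Filter Topology Set
open scoped NNReal UpperHalfPlane

noncomputable section

namespace Pool.Agent.Results.MP_efec2f_gt.ConesNotEnough

open Pool.Agent.H78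

/-- The logarithmic growth type is not in the spectrum of the binary tree. -/
theorem logRate_not_mem (I : Set ℤ) (hI : ∀ n : ℤ, 1 ≤ n → n ∈ I) :
    Quotient.mk growthSetoid logRate ∉ spectrum I BinTree := by
  rintro ⟨f, ⟨p, A, B, hA, hB, N₀, hp⟩, hf⟩
  have hsame : SameGrowth logRate f := Quotient.exact hf
  have hmem : ∀ n : ℕ, ((n : ℤ) + 1) ∈ I := fun n => hI _ (by omega)
  have htoP : ∀ k : ℕ, 1 ≤ k → ((k.toPNat' : ℕ+) : ℕ) = k := by
    intro k hk
    rw [Nat.toPNat'_coe, if_pos (show 0 < k from hk)]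
  obtain ⟨c, hc, K, hK⟩ := linear_growth BinTree.zeroHyp (fun n => p ⟨(n : ℤ) + 1, hmem n⟩)
    (fun k => f.f k.toPNat') A B hA hB (fun k => (f.pos _).le) (by
      intro C
      obtain ⟨N, hN⟩ := f.unbounded C
      refine ⟨N, fun k hk => lt_of_lt_of_le hN (f.mono ?_)⟩
      have hk1 : 1 ≤ k := le_trans N.pos hk
      rw [← PNat.coe_le_coe, htoP k hk1]
      exact hk) (N₀ : ℕ) (by
      intro n k hk
      have hk1 : 1 ≤ k := le_trans N₀.pos hk
      apply hp ⟨((n + k : ℕ) : ℤ) + 1, hmem (n + k)⟩ ⟨(n : ℤ) + 1, hmem n⟩ k.toPNat'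
      · have : ((k.toPNat' : ℕ+) : ℕ) = k := htoP k hk1
        rw [show ((k.toPNat' : ℕ+) : ℤ) = (((k.toPNat' : ℕ+) : ℕ) : ℤ) from rfl, this]
        simp only
        push_cast
        have : (n : ℤ) + 1 - ((n : ℤ) + k + 1) = -(k : ℤ) := by ring
        rw [this, abs_neg]
        exact abs_of_nonneg (Int.natCast_nonneg k)
      · rw [← PNat.coe_le_coe, htoP k hk1]
        exact hk)
  obtain ⟨c', C', hc', hC', N₁, hs⟩ := hsame
  -- choose a large integer
  obtain ⟨M, hM⟩ := exists_nat_gt (32 / (c' * c) ^ 2)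
  set k := max (max K N₁) (max M 1) with hk
  have hkK : K ≤ k := le_trans (le_max_left _ _) (le_max_left _ _)
  have hkN : (N₁ : ℕ) ≤ k := le_trans (le_max_right _ _) (le_max_left _ _)
  have hkM : M ≤ k := le_trans (le_max_left _ _) (le_max_right _ _)
  have hk1 : 1 ≤ k := le_trans (le_max_right _ _) (le_max_right _ _)
  have h1 := hK k hkK
  have hPk := htoP k hk1
  have h2 := (hs k.toPNat' (by rw [← PNat.coe_le_coe, hPk]; exact hkN)).1
  have h3 := logRate_le k.toPNat'
  rw [hPk] at h3
  have hkr : (1 : ℝ) ≤ k := by exact_mod_cast hk1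
  have hcc : 0 < c' * c := mul_pos hc' hc
  have h4 : c' * c * k ≤ 4 * √(1 + (k : ℝ)) := by
    calc c' * c * k = c' * (c * k) := by ring
      _ ≤ c' * f.f k.toPNat' := by gcongr
      _ ≤ logRate.f k.toPNat' := h2
      _ ≤ 4 * √(1 + (k : ℝ)) := h3
  have h5 : (c' * c * k) ^ 2 ≤ 16 * (1 + k) := by
    have h6 : (c' * c * k) ^ 2 ≤ (4 * √(1 + (k : ℝ))) ^ 2 := by gcongr
    rw [mul_pow 4, Real.sq_sqrt (by positivity)] at h6
    linarith
  have h7 : 32 / (c' * c) ^ 2 < k := lt_of_lt_of_le hM (by exact_mod_cast hkM)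
  rw [div_lt_iff₀ (by positivity)] at h7
  nlinarith

/-- **Asymptotic cones do not determine sequence distortion spectra.** There are proper geodesic
metric spaces `X` and `Y` such that for every non-principal ultrafilter `ω`, every sequence of
scales `r i → ∞` and all sequences of basepoints `x i` in `X` and `y i` in `Y` the asymptotic cones
`Cone ω x r` and `Cone ω y r` are bi-Lipschitz equivalent, while the sequence distortion spectra of
`X` and `Y` are different, both for the index set `{1, 2, 3, …}` and for the index set `ℤ`. -/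
theorem result : ∃ (X Y : Type) (_ : MetricSpace X) (_ : MetricSpace Y),
    ProperSpace X ∧ IsGeodesic X ∧ ProperSpace Y ∧ IsGeodesic Y ∧
    (∀ ω : Ultrafilter ℕ, NonPrincipal ω → ∀ r : ℕ → ℝ≥0, Tendsto r atTop atTop →
      ∀ (x : ℕ → X) (y : ℕ → Y), BiLipschitzEquivalent (Cone ω x r) (Cone ω y r)) ∧
    spectrum indexN X ≠ spectrum indexN Y ∧ spectrum indexZ X ≠ spectrum indexZ Y := by
  refine ⟨BinTree, ℍ, inferInstance, inferInstance, inferInstance, BinTree.isGeodesic,
    inferInstance, isGeodesic_hyp, ?_, ?_, ?_⟩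
  · intro ω hω r hr x y
    exact biLipschitzEquivalent_of_isometryEquiv
      (cones_isometric BinTree.branching branching_hyp ω hω r hr x y)
  · intro h
    apply logRate_not_mem indexN (fun n hn => hn)
    rw [h]
    exact ⟨logRate, realizable_logRate _, rfl⟩
  · intro h
    apply logRate_not_mem indexZ (fun n _ => trivial)
    rw [h]
    exact ⟨logRate, realizable_logRate _, rfl⟩

end Pool.Agent.Results.MP_efec2f_gt.ConesNotEnough
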